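import Pool.Agent.H634.Main
import Pool.Agent.H634.Sw1

/-!
# The bounding number can be `ℵ_(n+1)` in generic extensions of all countable models of ZF

From the imported files. `LSet` is the language of set theory and `ZF V` says that `V` is a model
of the axioms of ZF. For a substructure `W` of `N`: `IsTrans W` says that `W` is transitive in `N`,
and `IsForcingExtension W` says that `N` is a set-generic extension of `W`: there are a notion of
forcing `P` in `W` and a filter `G` in `N` that is `W`-generic for `P` such that every element of
`N` is the value by `G` of a name in `W`. `IsBoundingNumber κ` says that, in the sense of the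
model, `κ` is a cardinal that indexes an unbounded family of functions from `ω` to `ω` and that no
element of `κ` does. `IsAleph n κ` says that `κ` is the cardinal `ℵ_n` in the sense of the model.
-/

namespace Pool.Agent.Results.MP_d5720a_lc.BoundingNumberAnyAleph

open FirstOrder FirstOrder.Language
open Pool.Agent.Helper672.Plain (LSet Mem)
open Pool.Agent.H635Amen (ZF)
open Pool.Agent.H525Emb (IsTrans IsForcingExtension)
open Pool.Agent.H634

/-- Every countable model `V` of ZF has, for every `n`, a set-generic extension `N` in which the
bounding number exists and is `ℵ_(n+1)`. For `n ≠ 0` it is not `ℵ_1`. -/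
theorem result (V : Type) [LSet.Structure V] [Countable V] (hV : ZF V) (n : ℕ) :
    ∃ (N : Type) (_ : LSet.Structure N) (W : LSet.Substructure N) (_ : V ≃[LSet] W),
      ZF N ∧ IsTrans W ∧ IsForcingExtension W ∧
        ∃ κ : N, IsBoundingNumber κ ∧ IsAleph (n + 1) κ ∧ (n ≠ 0 → ¬ IsAleph 1 κ) := by
  obtain ⟨N, sN, W, e, hN, htr, hF, κ, h1, h2⟩ := bounding_main V hV n
  refine ⟨N, sN, W, e, hN, htr, hF, κ, h1, h2, fun hn h3 => hn ?_⟩
  let _ := hN.toZermelo
  have h4 := aleph_index hN h2 h3
  omega

end Pool.Agent.Results.MP_d5720a_lc.BoundingNumberAnyAleph
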